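import Mathlib

/-!
Definitions for MP_af33d6_an: rational maps of the Riemann sphere, conjugacy, multiplier
spectrum, elementary equivalence and Lattes maps.
-/

open Polynomial Filter Topology OnePoint

namespace Pool.Agent.Lib.MP_af33d6_an

/-- The Riemann sphere `ℙ¹(ℂ) = ℂ ∪ {∞}`. -/
abbrev P1 : Type := OnePoint ℂ

/-- The point `[a : b]` of the sphere: `a / b` if `b ≠ 0`, and `∞` if `b = 0`. -/
noncomputable def pt (a b : ℂ) : P1 := if b = 0 then ∞ else ((a / b : ℂ) : P1)

/-- The self-map `P / Q` of the sphere: `z ↦ [P(z) : Q(z)]`, and `∞ ↦ [p : q]` where `p, q` are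
the coefficients of `X ^ d` in `P, Q`, `d = max (deg P) (deg Q)`. -/
noncomputable def ratMap (P Q : ℂ[X]) (x : P1) : P1 :=
  OnePoint.elim x
    (pt (P.coeff (max P.natDegree Q.natDegree)) (Q.coeff (max P.natDegree Q.natDegree)))
    (fun z : ℂ => pt (P.eval z) (Q.eval z))

/-- `f` is a rational map of degree `d`: `f = P / Q` with `P, Q` coprime polynomials and
`max (deg P) (deg Q) = d`. -/
def IsRat (d : ℕ) (f : P1 → P1) : Prop :=
  ∃ P Q : ℂ[X], IsCoprime P Q ∧ max P.natDegree Q.natDegree = d ∧ f = ratMap P Q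

/-- `f` and `g` are conjugate by a Moebius transformation (a rational map of degree one). -/
def IsConjugate (f g : P1 → P1) : Prop :=
  ∃ m : P1 → P1, IsRat 1 m ∧ m ∘ f = g ∘ m

/-- The inversion `z ↦ 1 / z` of the sphere (it exchanges `0` and `∞`). -/
noncomputable def inv (x : P1) : P1 :=
  OnePoint.elim x ((0 : ℂ) : P1) (fun z : ℂ => pt 1 z)

/-- The affine coordinate of a point of the sphere (the value at `∞` is never used). -/
noncomputable def toC (x : P1) : ℂ := OnePoint.elim x (0 : ℂ) (fun z : ℂ => z)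

/-- A self-map of the sphere read in the affine coordinate `z`. -/
noncomputable def aff (h : P1 → P1) (z : ℂ) : ℂ := toC (h (z : P1))

/-- The multiplier of `h` at a fixed point `x`: the derivative of `h` in the coordinate `z` if
`x` is finite, and in the coordinate `1 / z` if `x = ∞`. -/
noncomputable def multiplier (h : P1 → P1) (x : P1) : ℂ :=
  OnePoint.elim x (deriv (aff (inv ∘ h ∘ inv)) 0) (fun z : ℂ => deriv (aff h) z)

/-- The multiplicity of `x` as a fixed point of `h`: the order of vanishing at `x` of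
`h(z) - z`, in the coordinate `z` if `x` is finite and in the coordinate `1 / z` if `x = ∞`. -/
noncomputable def fixMult (h : P1 → P1) (x : P1) : ℕ∞ :=
  OnePoint.elim x (analyticOrderAt (fun w => aff (inv ∘ h ∘ inv) w - w) 0)
    (fun z : ℂ => analyticOrderAt (fun w => aff h w - w) z)

/-- The number of fixed points of `h`, counted with multiplicity, whose multiplier is `c`. -/
noncomputable def multCount (h : P1 → P1) (c : ℂ) : ENNReal :=
  ∑' x : {x : P1 // h x = x ∧ multiplier h x = c}, (fixMult h x : ENNReal)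

/-- `f` and `g` have the same multiplier spectrum: for every `n ≥ 1` the multisets `S_n(f)` and
`S_n(g)` of multipliers of the fixed points of the `n`-th iterates (with multiplicity) are equal,
that is, every complex number `c` occurs equally often in both. -/
def SameSpectrum (f g : P1 → P1) : Prop :=
  ∀ n : ℕ, 1 ≤ n → ∀ c : ℂ, multCount f^[n] c = multCount g^[n] c

/-- `g` is an elementary transformation of `f`: `f = h₁ ∘ h₂` and `g = h₂ ∘ h₁` with `h₁, h₂`
rational. -/
def ElemTransf (f g : P1 → P1) : Prop :=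
  ∃ (d₁ d₂ : ℕ) (h₁ h₂ : P1 → P1), IsRat d₁ h₁ ∧ IsRat d₂ h₂ ∧ f = h₁ ∘ h₂ ∧ g = h₂ ∘ h₁

/-- A finite chain of elementary transformations leads from `f` to `g`. -/
def ElemEquiv (f g : P1 → P1) : Prop := Relation.ReflTransGen ElemTransf f g

/-- A map `θ : ℂ → ℙ¹(ℂ)` is holomorphic: near every point, `θ` or `1 / θ` is a `ℂ`-valued
analytic function. -/
def IsHol (θ : ℂ → P1) : Prop :=
  ∀ z₀ : ℂ, ∃ a : ℂ → ℂ, AnalyticAt ℂ a z₀ ∧
    ((∀ᶠ z in 𝓝 z₀, θ z = ((a z : ℂ) : P1)) ∨ (∀ᶠ z in 𝓝 z₀, inv (θ z) = ((a z : ℂ) : P1)))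

/-- `f` is a Lattes map: there are a complex torus `E = ℂ / Λ`, an affine map `L : E → E`
(induced by `z ↦ a z + b`) and a holomorphic map `Θ : E → ℙ¹(ℂ)` with finite fibres such that
`f ∘ Θ = Θ ∘ L`. -/
def IsLattes (f : P1 → P1) : Prop :=
  ∃ (Λ : PeriodPair) (L : ℂ ⧸ Λ.lattice → ℂ ⧸ Λ.lattice) (a b : ℂ)
    (Θ : ℂ ⧸ Λ.lattice → P1),
    (∀ z : ℂ, L (Submodule.Quotient.mk z) = Submodule.Quotient.mk (a * z + b)) ∧
    IsHol (fun z => Θ (Submodule.Quotient.mk z)) ∧ (∀ y : P1, (Θ ⁻¹' {y}).Finite) ∧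
    f ∘ Θ = Θ ∘ L

end Pool.Agent.Lib.MP_af33d6_an
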