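import Pool.Agent.Lib.MP_af33d6_an.Defs

-- part Pool.Agent.Lib.MP_af33d6_an.Degree
section

/-!
Degree of a rational map as the generic size of a fibre.
-/

open Polynomial Filter Topology OnePoint Set

namespace Pool.Agent.Lib.MP_af33d6_an

@[simp] lemma pt_zero (a : ℂ) : pt a 0 = ∞ := by simp [pt]

lemma pt_of_ne {a b : ℂ} (hb : b ≠ 0) : pt a b = ((a / b : ℂ) : P1) := by simp [pt, hb]

lemma pt_eq_infty {a b : ℂ} : pt a b = ∞ ↔ b = 0 := by
  unfold pt; split_ifs with h <;> simp [h]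

lemma pt_eq_coe {a b c : ℂ} : pt a b = (c : P1) ↔ b ≠ 0 ∧ a = c * b := by
  unfold pt; split_ifs with h
  · simp [h]
  · simp [h, div_eq_iff h]

@[simp] lemma ratMap_coe (P Q : ℂ[X]) (z : ℂ) : ratMap P Q (z : P1) = pt (P.eval z) (Q.eval z) :=
  rfl

lemma ratMap_infty (P Q : ℂ[X]) : ratMap P Q ∞ =
    pt (P.coeff (max P.natDegree Q.natDegree)) (Q.coeff (max P.natDegree Q.natDegree)) := rfl

@[simp] lemma inv_infty : inv ∞ = ((0 : ℂ) : P1) := rfl

lemma inv_coe (z : ℂ) : inv (z : P1) = pt 1 z := rfl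

@[simp] lemma inv_zero' : inv ((0 : ℂ) : P1) = ∞ := by simp [inv_coe]

lemma inv_coe_of_ne {z : ℂ} (hz : z ≠ 0) : inv (z : P1) = ((z⁻¹ : ℂ) : P1) := by
  simp [inv_coe, pt_of_ne hz]

@[simp] lemma inv_inv' (x : P1) : inv (inv x) = x := by
  induction x using OnePoint.rec with
  | infty => simp
  | coe z =>
    by_cases hz : z = 0
    · simp [hz]
    · rw [inv_coe_of_ne hz, inv_coe_of_ne (inv_ne_zero hz), inv_inv]

lemma inv_pt {a b : ℂ} (h : a ≠ 0 ∨ b ≠ 0) : inv (pt a b) = pt b a := by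
  by_cases hb : b = 0
  · have ha : a ≠ 0 := by tauto
    simp [hb, pt_of_ne ha]
  · by_cases ha : a = 0
    · simp [ha, pt_of_ne hb]
    · rw [pt_of_ne hb, pt_of_ne ha, inv_coe_of_ne (div_ne_zero ha hb), inv_div]

@[simp] lemma toC_coe (z : ℂ) : toC (z : P1) = z := rfl

@[simp] lemma toC_infty : toC ∞ = 0 := rfl

lemma no_common_root {P Q : ℂ[X]} (h : IsCoprime P Q) (z : ℂ) : P.eval z ≠ 0 ∨ Q.eval z ≠ 0 := by
  obtain ⟨a, b, hab⟩ := h
  by_contra! hc
  have := congrArg (Polynomial.eval z) hab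
  simp [hc.1, hc.2] at this

lemma ratMap_coe_eq_coe {P Q : ℂ[X]} (h : IsCoprime P Q) (z c : ℂ) :
    ratMap P Q (z : P1) = (c : P1) ↔ (P - C c * Q).IsRoot z := by
  rw [ratMap_coe, pt_eq_coe]
  simp only [IsRoot.def, eval_sub, eval_mul, eval_C, sub_eq_zero]
  constructor
  · exact fun h => h.2
  · intro h1
    refine ⟨fun h2 => ?_, h1⟩
    rcases no_common_root h z with h3 | h3
    · exact h3 (by simp [h1, h2])
    · exact h3 h2

/-- all but finitely many points have exactly `d` preimages -/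
def GenDeg (h : P1 → P1) (d : ℕ) : Prop := ∀ᶠ y in cofinite, (h ⁻¹' {y}).encard = d

lemma GenDeg.unique {h : P1 → P1} {d e : ℕ} (h1 : GenDeg h d) (h2 : GenDeg h e) : d = e := by
  obtain ⟨y, hy1, hy2⟩ := (h1.and h2).exists
  exact_mod_cast hy1.symm.trans hy2

lemma encard_preimage_finset (h : P1 → P1) (e : ℕ) (S : Finset P1)
    (hS : ∀ s ∈ S, (h ⁻¹' {s}).encard = e) : (h ⁻¹' (S : Set P1)).encard = (S.card * e : ℕ) := by
  classical
  induction S using Finset.induction_on with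
  | empty => simp
  | insert a S ha ih =>
    have h1 : h ⁻¹' ((insert a S : Finset P1) : Set P1) = h ⁻¹' {a} ∪ h ⁻¹' (S : Set P1) := by
      ext x; simp
    rw [h1, Set.encard_union_eq, hS a (by simp), ih (fun s hs => hS s (by simp [hs])),
      Finset.card_insert_of_notMem ha]
    · push_cast; ring
    · rw [Set.disjoint_left]
      intro x hx1 hx2
      simp only [mem_preimage, mem_singleton_iff, SetLike.mem_coe] at hx1 hx2
      exact ha (hx1 ▸ hx2)

lemma GenDeg.comp {h k : P1 → P1} {d e : ℕ} (h1 : GenDeg h d) (h2 : GenDeg k e) :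
    GenDeg (h ∘ k) (d * e) := by
  unfold GenDeg at *
  have h3 : ∀ᶠ y in cofinite, y ∉ h '' {s | ¬ (k ⁻¹' {s}).encard = e} :=
    (Set.Finite.image h (Filter.eventually_cofinite.1 h2)).eventually_cofinite_notMem
  filter_upwards [h1, h3] with y hy1 hy3
  have hfin : (h ⁻¹' {y}).Finite := Set.finite_of_encard_eq_coe hy1
  have hc : hfin.toFinset.card = d := by
    have := hfin.encard_eq_coe_toFinset_card
    rw [hy1] at this
    exact_mod_cast this.symm
  have := encard_preimage_finset k e hfin.toFinset (by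
    intro s hs
    by_contra hne
    exact hy3 ⟨s, hne, by simpa using hs⟩)
  rw [hc, Set.Finite.coe_toFinset] at this
  rw [Set.preimage_comp, this]

lemma top_coeff_ne {P Q : ℂ[X]} (h : IsCoprime P Q) :
    P.coeff (max P.natDegree Q.natDegree) ≠ 0 ∨ Q.coeff (max P.natDegree Q.natDegree) ≠ 0 := by
  rcases le_total P.natDegree Q.natDegree with h1 | h1
  · rw [max_eq_right h1]
    by_cases hQ : Q = 0
    · left
      subst hQ
      have hP : IsUnit P := isCoprime_zero_right.1 h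
      have : P.natDegree = 0 := natDegree_eq_zero_of_isUnit hP
      rw [natDegree_zero, ← this]
      exact leadingCoeff_ne_zero.2 hP.ne_zero
    · right; exact leadingCoeff_ne_zero.2 hQ
  · rw [max_eq_left h1]
    by_cases hP : P = 0
    · right
      subst hP
      have hQ : IsUnit Q := isCoprime_zero_left.1 h
      have : Q.natDegree = 0 := natDegree_eq_zero_of_isUnit hQ
      rw [natDegree_zero, ← this]
      exact leadingCoeff_ne_zero.2 hQ.ne_zero
    · left; exact leadingCoeff_ne_zero.2 hP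

lemma natDegree_sub_of_ne {P Q : ℂ[X]} (h : IsCoprime P Q) {c : ℂ}
    (hc : ratMap P Q ∞ ≠ (c : P1)) :
    P - C c * Q ≠ 0 ∧ (P - C c * Q).natDegree = max P.natDegree Q.natDegree := by
  set d := max P.natDegree Q.natDegree with hd
  have h1 : (P - C c * Q).coeff d ≠ 0 := by
    intro h2
    apply hc
    rw [ratMap_infty, pt_eq_coe, ← hd]
    simp only [coeff_sub, coeff_C_mul, sub_eq_zero] at h2
    refine ⟨fun h3 => ?_, h2⟩
    rcases top_coeff_ne h with h4 | h4
    · exact h4 (by rw [← hd, h2, h3, mul_zero])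
    · exact h4 h3
  refine ⟨fun h0 => h1 (by simp [h0]), ?_⟩
  apply le_antisymm
  · refine (natDegree_sub_le _ _).trans (max_le (le_max_left _ _) ?_)
    exact (natDegree_C_mul_le _ _).trans (le_max_right _ _)
  · exact le_natDegree_of_ne_zero h1

lemma fiber_eq {P Q : ℂ[X]} (h : IsCoprime P Q) {c : ℂ} (hc : ratMap P Q ∞ ≠ (c : P1)) :
    ratMap P Q ⁻¹' {(c : P1)} = ((↑) : ℂ → P1) '' ((P - C c * Q).roots.toFinset : Set ℂ) := by
  ext x
  induction x using OnePoint.rec with
  | infty => simp [hc]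
  | coe z =>
    simp only [mem_preimage, mem_singleton_iff, ratMap_coe_eq_coe h, Finset.mem_coe,
      Multiset.mem_toFinset, mem_roots (natDegree_sub_of_ne h hc).1,
      OnePoint.coe_injective.mem_set_image]

lemma IsRat.genDeg {d : ℕ} {f : P1 → P1} (hf : IsRat d f) : GenDeg f d := by
  classical
  obtain ⟨P, Q, h, hd, rfl⟩ := hf
  by_cases hW : wronskian P Q = 0
  · obtain ⟨h1, h2⟩ := h.wronskian_eq_zero_iff.1 hW
    have hP : P.natDegree = 0 := Polynomial.derivative_eq_zero.1 h1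
    have hQ : Q.natDegree = 0 := Polynomial.derivative_eq_zero.1 h2
    have hd0 : d = 0 := by omega
    subst hd0
    have hconst : ∀ x, ratMap P Q x = ratMap P Q ∞ := by
      intro x
      induction x using OnePoint.rec with
      | infty => rfl
      | coe z =>
        rw [ratMap_coe, ratMap_infty, hd, eq_C_of_natDegree_eq_zero hP,
          eq_C_of_natDegree_eq_zero hQ]
        simp
    filter_upwards [eventually_cofinite_ne (ratMap P Q ∞)] with y hy
    have : ratMap P Q ⁻¹' {y} = ∅ := by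
      ext x; simp [hconst x, hy.symm]
    simp [this]
  · have hfin : (ratMap P Q '' (((↑) : ℂ → P1) '' ((wronskian P Q).roots.toFinset : Set ℂ))).Finite :=
      ((Finset.finite_toSet _).image _).image _
    filter_upwards [eventually_cofinite_ne (ratMap P Q ∞), eventually_cofinite_ne ∞,
      hfin.eventually_cofinite_notMem] with y hy1 hy2 hy3
    induction y using OnePoint.rec with
    | infty => exact (hy2 rfl).elim
    | coe c =>
      obtain ⟨h0, hdeg⟩ := natDegree_sub_of_ne h hy1.symm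
      rw [fiber_eq h hy1.symm, OnePoint.coe_injective.encard_image, Set.encard_coe_eq_coe_finsetCard,
        Multiset.toFinset_card_of_nodup, IsAlgClosed.card_roots_eq_natDegree, hdeg, hd]
      rw [Multiset.nodup_iff_count_le_one]
      intro z
      rw [count_roots]
      by_contra! hlt
      obtain ⟨r1, r2⟩ := (one_lt_rootMultiplicity_iff_isRoot h0).1 hlt
      apply hy3
      refine ⟨z, ⟨z, ?_, rfl⟩, (ratMap_coe_eq_coe h z c).2 r1⟩
      rw [Finset.mem_coe, Multiset.mem_toFinset, mem_roots hW]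
      simp only [IsRoot.def, wronskian, eval_sub, eval_mul]
      simp only [IsRoot.def, eval_sub, eval_mul, eval_C, derivative_sub, derivative_mul,
        derivative_C, zero_mul, zero_add] at r1 r2
      linear_combination (eval z (derivative Q)) * r1 - (eval z Q) * r2

lemma IsRat.bijective {m : P1 → P1} (hm : IsRat 1 m) : Function.Bijective m := by
  classical
  obtain ⟨P, Q, h, hd, rfl⟩ := hm
  have hP : P.natDegree ≤ 1 := hd ▸ le_max_left _ _
  have hQ : Q.natDegree ≤ 1 := hd ▸ le_max_right _ _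
  have eP := eq_X_add_C_of_natDegree_le_one hP
  have eQ := eq_X_add_C_of_natDegree_le_one hQ
  set a := P.coeff 1
  set b := P.coeff 0
  set c := Q.coeff 1
  set e := Q.coeff 0
  have hdet : a * e - b * c ≠ 0 := by
    intro h0
    have hW : wronskian P Q = 0 := by
      rw [wronskian, eP, eQ]
      simp only [derivative_add, derivative_mul, derivative_C, derivative_X, zero_mul, mul_one,
        zero_add, add_zero]
      have : (C a * X + C b) * C c - C a * (C c * X + C e) = - C (a * e - b * c) := by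
        simp only [map_sub, map_mul]; ring
      rw [this, h0]; simp
    obtain ⟨h1, h2⟩ := h.wronskian_eq_zero_iff.1 hW
    have hP : P.natDegree = 0 := Polynomial.derivative_eq_zero.1 h1
    have hQ : Q.natDegree = 0 := Polynomial.derivative_eq_zero.1 h2
    omega
  let g : GL (Fin 2) ℂ := Matrix.GeneralLinearGroup.mkOfDetNeZero !![a, b; c, e]
    (by simpa [Matrix.det_fin_two] using hdet)
  have key : ratMap P Q = fun x => g • x := by
    funext x
    induction x using OnePoint.rec with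
    | infty =>
      rw [ratMap_infty, hd, OnePoint.smul_infty_eq_ite]
      simp [pt, g, a, c]
    | coe z =>
      rw [ratMap_coe, OnePoint.smul_some_eq_ite]
      have e1 : P.eval z = a * z + b := by rw [eP]; simp
      have e2 : Q.eval z = c * z + e := by rw [eQ]; simp
      simp [pt, g, e1, e2]
  rw [key]
  exact MulAction.bijective g

/-- the invariant separating the two maps -/
def Inv (h : P1 → P1) : Prop := GenDeg h 11 ∧ ∃ x, h x = x ∧ (h ⁻¹' {x}).encard ≤ 5

lemma Inv.of_semiconj {h k m : P1 → P1} (hm : Function.Bijective m) (hc : m ∘ h = k ∘ m) :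
    Inv h ↔ Inv k := by
  have key : ∀ x, (k ⁻¹' {m x}).encard = (h ⁻¹' {x}).encard := by
    intro x
    rw [← hm.1.encard_image (h ⁻¹' {x})]
    congr 1
    ext y
    obtain ⟨z, rfl⟩ := hm.2 y
    have := congrFun hc z
    simp only [Function.comp] at this
    simp [← this, hm.1.eq_iff]
  have hfix : ∀ x, k (m x) = m x ↔ h x = x := by
    intro x
    have := congrFun hc x
    simp only [Function.comp] at this
    rw [← this, hm.1.eq_iff]
  have hg : GenDeg h 11 ↔ GenDeg k 11 := by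
    unfold GenDeg
    simp only [Filter.eventually_cofinite]
    have : {y | ¬ (k ⁻¹' {y}).encard = ((11 : ℕ) : ℕ∞)} =
        m '' {y | ¬ (h ⁻¹' {y}).encard = ((11 : ℕ) : ℕ∞)} := by
      ext y
      obtain ⟨z, rfl⟩ := hm.2 y
      rw [hm.1.mem_set_image]
      simp only [mem_ofPred_eq, key]
    rw [this, Set.finite_image_iff hm.1.injOn]
  unfold Inv
  rw [hg, hm.2.exists (p := fun x => k x = x ∧ (k ⁻¹' {x}).encard ≤ 5)]
  simp only [key, hfix]

lemma Inv.of_elemTransf {f g : P1 → P1} (hfg : ElemTransf f g) (hf : Inv f) : Inv g := by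
  obtain ⟨d₁, d₂, h₁, h₂, r1, r2, rfl, rfl⟩ := hfg
  have hd : d₁ * d₂ = 11 := (r1.genDeg.comp r2.genDeg).unique hf.1
  have hp : Nat.Prime (d₁ * d₂) := by rw [hd]; norm_num
  rcases Nat.prime_mul_iff.1 hp with ⟨-, rfl⟩ | ⟨-, rfl⟩
  · exact (Inv.of_semiconj (m := h₂) (h := h₁ ∘ h₂) r2.bijective rfl).1 hf
  · exact (Inv.of_semiconj (m := h₁) (h := h₂ ∘ h₁) (k := h₁ ∘ h₂) r1.bijective rfl).2 hf

lemma Inv.of_elemEquiv {f g : P1 → P1} (hfg : ElemEquiv f g) (hf : Inv f) : Inv g := by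
  induction hfg with
  | refl => exact hf
  | tail _ h ih => exact ih.of_elemTransf h

lemma Inv.of_isConjugate {f g : P1 → P1} (hfg : IsConjugate f g) (hf : Inv f) : Inv g := by
  obtain ⟨m, hm, hc⟩ := hfg
  exact (Inv.of_semiconj hm.bijective hc).1 hf

end Pool.Agent.Lib.MP_af33d6_an
end

-- part Pool.Agent.Lib.MP_af33d6_an.Local
section

/-!
Local analysis: multipliers and multiplicities under local conjugacy; passage to the quotient
of the sphere by the inversion.
-/

open Polynomial Filter Topology OnePoint Set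

namespace Pool.Agent.Lib.MP_af33d6_an

/-- `h` is finite and analytic near the finite point `z` -/
def Reg (h : P1 → P1) (z : ℂ) : Prop :=
  AnalyticAt ℂ (aff h) z ∧ ∀ᶠ w : ℂ in 𝓝 z, h (w : P1) = ((aff h w : ℂ) : P1)

lemma aff_of_eq {h : P1 → P1} {z a : ℂ} (e : h (z : P1) = (a : P1)) : aff h z = a := by
  simp [aff, e]

lemma aff_eventually {h : P1 → P1} {z : ℂ} {a : ℂ → ℂ}
    (he : ∀ᶠ w : ℂ in 𝓝 z, h (w : P1) = ((a w : ℂ) : P1)) : aff h =ᶠ[𝓝 z] a := by
  filter_upwards [he] with w hw using aff_of_eq hw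

lemma Reg.of_eventually {h : P1 → P1} {z : ℂ} {a : ℂ → ℂ} (ha : AnalyticAt ℂ a z)
    (he : ∀ᶠ w : ℂ in 𝓝 z, h (w : P1) = ((a w : ℂ) : P1)) : Reg h z := by
  refine ⟨ha.congr (aff_eventually he).symm, ?_⟩
  filter_upwards [he] with w hw
  rw [aff_of_eq hw, hw]

lemma Reg.comp_eventually {h k : P1 → P1} {z : ℂ} (hh : Reg h z) (hk : Reg k (aff h z)) :
    ∀ᶠ w : ℂ in 𝓝 z, (k ∘ h) (w : P1) = (((aff k ∘ aff h) w : ℂ) : P1) := by
  filter_upwards [hh.2, hh.1.continuousAt.tendsto.eventually hk.2] with w h1 h2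
  simp only [Function.comp]
  rw [h1, h2]

lemma Reg.comp {h k : P1 → P1} {z : ℂ} (hh : Reg h z) (hk : Reg k (aff h z)) : Reg (k ∘ h) z :=
  Reg.of_eventually (hk.1.comp hh.1) (hh.comp_eventually hk)

lemma Reg.deriv_comp {h k : P1 → P1} {z : ℂ} (hh : Reg h z) (hk : Reg k (aff h z)) :
    deriv (aff (k ∘ h)) z = deriv (aff k) (aff h z) * deriv (aff h) z := by
  rw [(aff_eventually (hh.comp_eventually hk)).deriv_eq]
  exact _root_.deriv_comp z hk.1.differentiableAt hh.1.differentiableAt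

lemma reg_inv {z : ℂ} (hz : z ≠ 0) : Reg inv z := by
  refine Reg.of_eventually (a := fun w => w⁻¹) (analyticAt_id.inv hz) ?_
  filter_upwards [eventually_ne_nhds hz] with w hw using inv_coe_of_ne hw

/-- `h` fixes `∞` and is analytic at the finite points with finite image -/
def Good (h : P1 → P1) : Prop := h ∞ = ∞ ∧ ∀ z : ℂ, h (z : P1) ≠ ∞ → Reg h z

lemma Good.comp {h k : P1 → P1} (hh : Good h) (hk : Good k) : Good (k ∘ h) := by
  refine ⟨by simp [hh.1, hk.1], fun z hz => ?_⟩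
  have h1 : h z ≠ ∞ := fun e => hz (by simp [e, hk.1])
  have h2 := hh.2 z h1
  refine h2.comp (hk.2 _ ?_)
  rwa [← h2.2.self_of_nhds]

lemma good_id : Good id :=
  ⟨rfl, fun _ _ => Reg.of_eventually (a := id) analyticAt_id (Eventually.of_forall fun _ => rfl)⟩

lemma Good.iterate {h : P1 → P1} (hh : Good h) (n : ℕ) : Good h^[n] := by
  induction n with
  | zero => exact good_id
  | succ n ih => exact hh.comp ih

/-- the map fixing `∞` given by a pair of polynomials -/
noncomputable def rm (P Q : ℂ[X]) (x : P1) : P1 :=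
  OnePoint.elim x ∞ (fun z : ℂ => pt (P.eval z) (Q.eval z))

@[simp] lemma rm_infty (P Q : ℂ[X]) : rm P Q ∞ = ∞ := rfl

@[simp] lemma rm_coe (P Q : ℂ[X]) (z : ℂ) : rm P Q (z : P1) = pt (P.eval z) (Q.eval z) := rfl

lemma analyticAt_eval (P : ℂ[X]) (z : ℂ) : AnalyticAt ℂ (fun w => P.eval w) z :=
  P.differentiable.analyticAt z

lemma rm_eventually (P Q : ℂ[X]) {z : ℂ} (hz : Q.eval z ≠ 0) :
    ∀ᶠ w : ℂ in 𝓝 z, rm P Q (w : P1) = ((P.eval w / Q.eval w : ℂ) : P1) := by
  filter_upwards [(analyticAt_eval Q z).continuousAt.eventually_ne hz] with w hw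
  rw [rm_coe, pt_of_ne hw]

lemma good_rm (P Q : ℂ[X]) : Good (rm P Q) := by
  refine ⟨rfl, fun z hz => ?_⟩
  have hQ : Q.eval z ≠ 0 := fun e => hz (by simp [e])
  exact Reg.of_eventually ((analyticAt_eval P z).div (analyticAt_eval Q z) hQ) (rm_eventually P Q hQ)

lemma deriv_rm_eq_zero (P Q : ℂ[X]) {z : ℂ} (hz : Q.eval z ≠ 0)
    (hW : (derivative P).eval z * Q.eval z - P.eval z * (derivative Q).eval z = 0) :
    deriv (aff (rm P Q)) z = 0 := by
  rw [(aff_eventually (rm_eventually P Q hz)).deriv_eq]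
  have := ((P.hasDerivAt z).div (Q.hasDerivAt z) hz).deriv
  rw [hW, zero_div] at this
  exact this

open Classical in
/-- contribution of the point `x` to the count of the multiplier `c` -/
noncomputable def wt (h : P1 → P1) (c : ℂ) (x : P1) : ENNReal :=
  if h x = x ∧ multiplier h x = c then (fixMult h x : ENNReal) else 0

lemma wt_of_ne {h : P1 → P1} {c : ℂ} {x : P1} (hx : h x ≠ x) : wt h c x = 0 := by
  simp [wt, hx]

lemma wt_congr {h k : P1 → P1} {x y : P1} (hx : h x = x) (hy : k y = y)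
    (e : multiplier k y = multiplier h x ∧ fixMult k y = fixMult h x) (c : ℂ) :
    wt k c y = wt h c x := by
  simp [wt, hx, hy, e.1, e.2]

lemma multCount_eq (h : P1 → P1) (c : ℂ) :
    multCount h c = wt h c ∞ + ∑' z : ℂ, wt h c (z : P1) := by
  classical
  have h1 : multCount h c = ∑' x, wt h c x := by
    unfold multCount
    refine (tsum_subtype {x : P1 | h x = x ∧ multiplier h x = c}
      (fun x => (fixMult h x : ENNReal))).trans (tsum_congr fun x => ?_)
    simp [wt, Set.indicator]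
  rw [h1, ENNReal.tsum_eq_add_tsum_ite ∞]
  congr 1
  rw [← OnePoint.coe_injective.tsum_eq]
  · simp
  · intro x hx
    induction x using OnePoint.rec with
    | infty => simp at hx
    | coe z => exact ⟨z, rfl⟩

lemma wt_infty (h : P1 → P1) (c : ℂ) : wt h c ∞ = wt (inv ∘ h ∘ inv) c ((0 : ℂ) : P1) := by
  have : (inv ∘ h ∘ inv) ((0 : ℂ) : P1) = ((0 : ℂ) : P1) ↔ h ∞ = ∞ := by
    simp only [Function.comp, inv_zero']
    constructor
    · intro e
      have := congrArg inv e
      simpa using this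
    · intro e; simp [e]
  by_cases e : h ∞ = ∞
  · exact (wt_congr e (this.2 e) ⟨rfl, rfl⟩ c).symm
  · rw [wt_of_ne e, wt_of_ne (fun e' => e (this.1 e'))]

lemma inv_iterate_inv (h : P1 → P1) (n : ℕ) : inv ∘ h^[n] ∘ inv = (inv ∘ h ∘ inv)^[n] := by
  induction n with
  | zero => funext x; simp
  | succ n ih =>
    funext x
    rw [Function.iterate_succ, Function.iterate_succ, ← ih]
    simp

/-- superattracting finite fixed point -/
def SA (h : P1 → P1) (z : ℂ) : Prop := Reg h z ∧ h (z : P1) = (z : P1) ∧ deriv (aff h) z = 0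

lemma SA.iterate {h : P1 → P1} {z : ℂ} (hh : SA h z) {n : ℕ} (hn : 1 ≤ n) : SA h^[n] z := by
  induction n, hn using Nat.le_induction with
  | base => simpa using hh
  | succ n _ ih =>
    have e : aff h z = z := aff_of_eq hh.2.1
    have r : Reg h^[n] (aff h z) := by rw [e]; exact ih.1
    refine ⟨hh.1.comp r, ?_, ?_⟩
    · rw [Function.iterate_succ, Function.comp, hh.2.1, ih.2.1]
    · rw [Function.iterate_succ, hh.1.deriv_comp r, hh.2.2, mul_zero]

lemma SA.inv_comp {h : P1 → P1} {z : ℂ} (hh : SA h z) (hz : z * z = 1) : SA (inv ∘ h) z := by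
  have e : aff h z = z := aff_of_eq hh.2.1
  have hz0 : z ≠ 0 := by rintro rfl; simp at hz
  have r : Reg inv (aff h z) := by rw [e]; exact reg_inv hz0
  refine ⟨hh.1.comp r, ?_, ?_⟩
  · rw [Function.comp, hh.2.1, inv_coe_of_ne hz0, inv_eq_of_mul_eq_one_left hz]
  · rw [hh.1.deriv_comp r, hh.2.2, mul_zero]

open Classical in
lemma SA.wt {h : P1 → P1} {z : ℂ} (hh : SA h z) (c : ℂ) :
    wt h c (z : P1) = if c = 0 then 1 else 0 := by
  have e : aff h z = z := aff_of_eq hh.2.1
  have h1 : multiplier h (z : P1) = 0 := hh.2.2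
  have h2 : fixMult h (z : P1) = 1 := by
    show analyticOrderAt (fun w => aff h w - w) z = 1
    apply AnalyticAt.analyticOrderAt_eq_one_of_zero_deriv_ne_zero (hh.1.1.sub analyticAt_id)
    · simp [e]
    · rw [deriv_sub hh.1.1.differentiableAt differentiableAt_id, hh.2.2]
      simp
  simp [MP_af33d6_an.wt, hh.2.1, h1, h2, eq_comm]

lemma local_conj {h k : P1 → P1} {z : ℂ} {p u : ℂ → ℂ} (hh : Reg h z) (hfix : h (z : P1) = (z : P1))
    (hk : Reg k (p z)) (hp : AnalyticAt ℂ p z) (hp' : deriv p z ≠ 0) (hu : AnalyticAt ℂ u z)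
    (hu0 : u z ≠ 0) (hsemi : ∀ᶠ w in 𝓝 z, aff k (p w) = p (aff h w))
    (hfac : ∀ᶠ w in 𝓝 z, p (aff h w) - p w = (aff h w - w) * u w) :
    multiplier k ((p z : ℂ) : P1) = multiplier h (z : P1) ∧
      fixMult k ((p z : ℂ) : P1) = fixMult h (z : P1) := by
  have e : aff h z = z := aff_of_eq hfix
  constructor
  · show deriv (aff k) (p z) = deriv (aff h) z
    have h1 : deriv (aff k ∘ p) z = deriv (aff k) (p z) * deriv p z :=
      _root_.deriv_comp z hk.1.differentiableAt hp.differentiableAt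
    have h2 : deriv (p ∘ aff h) z = deriv p (aff h z) * deriv (aff h) z :=
      _root_.deriv_comp z (by rw [e]; exact hp.differentiableAt) hh.1.differentiableAt
    have h3 : deriv (aff k ∘ p) z = deriv (p ∘ aff h) z := EventuallyEq.deriv_eq hsemi
    rw [h1, h2, e, mul_comm] at h3
    exact mul_left_cancel₀ hp' h3
  · show analyticOrderAt (fun w => aff k w - w) (p z) = analyticOrderAt (fun w => aff h w - w) z
    rw [← analyticOrderAt_comp_of_deriv_ne_zero hp hp']
    have h1 : ((fun w => aff k w - w) ∘ p) =ᶠ[𝓝 z] (fun w => aff h w - w) * u := by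
      filter_upwards [hsemi, hfac] with w h1 h2
      simp only [Function.comp, Pi.mul_apply, h1, h2]
    have h4 : AnalyticAt ℂ (fun w => aff h w - w) z := hh.1.sub analyticAt_id
    rw [analyticOrderAt_congr h1, analyticOrderAt_mul h4 hu,
      hu.analyticOrderAt_eq_zero.2 hu0, add_zero]

/-- scaling -/
noncomputable def sc (c : ℂ) : P1 → P1 := rm (C c * X) 1

@[simp] lemma sc_infty (c : ℂ) : sc c ∞ = ∞ := rfl

@[simp] lemma sc_coe (c z : ℂ) : sc c (z : P1) = ((c * z : ℂ) : P1) := by simp [sc, pt]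

lemma good_sc (c : ℂ) : Good (sc c) := good_rm _ _

lemma sc_pt (c a b : ℂ) : sc c (pt a b) = pt (c * a) b := by
  by_cases hb : b = 0
  · simp [hb]
  · simp [pt_of_ne hb, mul_div_assoc]

lemma sc_sc (c e : ℂ) (x : P1) : sc c (sc e x) = sc (c * e) x := by
  induction x using OnePoint.rec with
  | infty => simp
  | coe z => simp [mul_assoc]

@[simp] lemma sc_one (x : P1) : sc 1 x = x := by
  induction x using OnePoint.rec with
  | infty => simp
  | coe z => simp

lemma inv_sc {c : ℂ} (hc : c ≠ 0) (x : P1) : inv (sc c x) = sc c⁻¹ (inv x) := by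
  induction x using OnePoint.rec with
  | infty => simp
  | coe z =>
    by_cases hz : z = 0
    · simp [hz]
    · rw [sc_coe, inv_coe_of_ne (mul_ne_zero hc hz), inv_coe_of_ne hz, sc_coe, mul_inv]

/-- regular at the nonzero finite fixed points -/
def RegFix (h : P1 → P1) : Prop := ∀ z : ℂ, z ≠ 0 → h (z : P1) = (z : P1) → Reg h z

lemma Good.regFix {h : P1 → P1} (hh : Good h) : RegFix h :=
  fun z _ e => hh.2 z (by simp [e])

lemma Good.regFix_inv {h : P1 → P1} (hh : Good h) : RegFix (inv ∘ h) := by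
  intro z hz e
  have e1 : h z = ((z⁻¹ : ℂ) : P1) := by
    rw [← inv_coe_of_ne hz, ← inv_inv' (h z)]
    exact congrArg inv e
  have r := hh.2 z (by simp [e1])
  refine r.comp ?_
  rw [aff_of_eq e1]
  exact reg_inv (inv_ne_zero hz)

lemma wt_scale {h k : P1 → P1} (hh : RegFix h) (hk : RegFix k) {s : ℂ} (hs : s ≠ 0)
    (hc : ∀ x, k (sc s x) = sc s (h x)) (c : ℂ) {z : ℂ} (hz : z ≠ 0) :
    wt k c ((s * z : ℂ) : P1) = wt h c (z : P1) := by
  have h0 : k ((s * z : ℂ) : P1) = sc s (h z) := by rw [← hc, sc_coe]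
  by_cases e : h z = z
  · have e' : k ((s * z : ℂ) : P1) = ((s * z : ℂ) : P1) := by rw [h0, e, sc_coe]
    refine wt_congr e e' ?_ c
    have r := hh z hz e
    refine local_conj (p := fun w => s * w) (u := fun _ => s) r e (hk _ (mul_ne_zero hs hz) e')
      (by fun_prop) (by simpa using hs) (by fun_prop) hs ?_ ?_
    · filter_upwards [r.2] with w hw
      apply aff_of_eq
      rw [← sc_coe, hc, hw, sc_coe]
    · exact Eventually.of_forall fun w => by ring
  · rw [wt_of_ne e, wt_of_ne]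
    intro e'
    apply e
    rw [h0] at e'
    have := congrArg (sc s⁻¹) e'
    rwa [sc_sc, inv_mul_cancel₀ hs, sc_one, sc_coe, inv_mul_cancel_left₀ hs] at this

/-- sum of the weights over the nonzero finite points -/
noncomputable def Sfin (h : P1 → P1) (c : ℂ) : ENNReal := ∑' z : ℂˣ, wt h c (((z : ℂˣ) : ℂ) : P1)

lemma Sfin_scale {h k : P1 → P1} (hh : RegFix h) (hk : RegFix k) {s : ℂ} (hs : s ≠ 0)
    (hc : ∀ x, k (sc s x) = sc s (h x)) (c : ℂ) : Sfin k c = Sfin h c := by
  unfold Sfin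
  rw [← (Equiv.mulLeft (Units.mk0 s hs)).tsum_eq]
  refine tsum_congr fun z => ?_
  exact wt_scale hh hk hs hc c z.ne_zero

/-- the quotient map `z ↦ z + 1 / z` -/
noncomputable def qm : P1 → P1 := rm (X ^ 2 + 1) X

@[simp] lemma qm_infty : qm ∞ = ∞ := rfl

@[simp] lemma qm_zero : qm ((0 : ℂ) : P1) = ∞ := by simp [qm]

lemma qm_coe {z : ℂ} (hz : z ≠ 0) : qm (z : P1) = ((z + z⁻¹ : ℂ) : P1) := by
  simp only [qm, rm_coe, eval_add, eval_pow, eval_X, eval_one, pt_of_ne hz]
  congr 1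
  field_simp

lemma qm_inv (x : P1) : qm (inv x) = qm x := by
  induction x using OnePoint.rec with
  | infty => simp
  | coe z =>
    by_cases hz : z = 0
    · simp [hz]
    · rw [inv_coe_of_ne hz, qm_coe hz, qm_coe (inv_ne_zero hz), inv_inv, add_comm]

lemma qm_neg (x : P1) : qm (sc (-1) x) = sc (-1) (qm x) := by
  induction x using OnePoint.rec with
  | infty => simp
  | coe z =>
    by_cases hz : z = 0
    · simp [hz]
    · rw [sc_coe, qm_coe hz, qm_coe (by simpa using hz), sc_coe]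
      congr 1
      field_simp
      ring

lemma add_inv_eq_iff {y z : ℂ} (hy : y ≠ 0) (hz : z ≠ 0) :
    y + y⁻¹ = z + z⁻¹ ↔ y = z ∨ y = z⁻¹ := by
  constructor
  · intro e
    have : (y - z) * (y - z⁻¹) = 0 := by
      field_simp at e ⊢
      linear_combination e
    rcases mul_eq_zero.1 this with h | h
    · left; exact sub_eq_zero.1 h
    · right; exact sub_eq_zero.1 h
  · rintro (rfl | rfl)
    · rfl
    · rw [inv_inv, add_comm]

lemma qm_eq_iff {x : P1} {z : ℂ} (hz : z ≠ 0) :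
    qm x = ((z + z⁻¹ : ℂ) : P1) ↔ x = (z : P1) ∨ inv x = (z : P1) := by
  induction x using OnePoint.rec with
  | infty => simp [hz.symm]
  | coe y =>
    by_cases hy : y = 0
    · simp [hy, hz.symm]
    · rw [qm_coe hy, inv_coe_of_ne hy, OnePoint.coe_eq_coe, OnePoint.coe_eq_coe,
        OnePoint.coe_eq_coe, add_inv_eq_iff hy hz, inv_eq_iff_eq_inv]

lemma wt_qm_of_fix {h k : P1 → P1} (hk : Good k) (hc : ∀ x, k (qm x) = qm (h x)) {z : ℂ}
    (hz : z ≠ 0) (hz1 : z * z ≠ 1) (r : Reg h z) (e : h z = z) (c : ℂ) :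
    wt k c ((z + z⁻¹ : ℂ) : P1) = wt h c (z : P1) := by
  have e' : k ((z + z⁻¹ : ℂ) : P1) = ((z + z⁻¹ : ℂ) : P1) := by
    rw [← qm_coe hz, hc, e]
  refine wt_congr e e' ?_ c
  have ea : aff h z = z := aff_of_eq e
  have hne : ∀ᶠ w in 𝓝 z, aff h w ≠ 0 := r.1.continuousAt.eventually_ne (by rwa [ea])
  have h1 : (1 : ℂ) - (z * z)⁻¹ ≠ 0 := by
    rw [sub_ne_zero]
    intro e
    exact hz1 (inv_eq_one.1 e.symm)
  refine local_conj (p := fun w => w + w⁻¹) (u := fun w => 1 - (aff h w * w)⁻¹) r e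
    (hk.2 _ (by simp [e'])) (analyticAt_id.add (analyticAt_id.inv hz)) ?_ ?_ ?_ ?_ ?_
  · have := ((hasDerivAt_id z).add (hasDerivAt_inv hz)).deriv
    have e2 : deriv (fun w : ℂ => w + w⁻¹) z = 1 + -(z ^ 2)⁻¹ := this
    rw [e2, sq, ← sub_eq_add_neg]
    exact h1
  · exact analyticAt_const.sub ((r.1.mul analyticAt_id).inv (by simpa [ea] using hz))
  · simpa only [ea] using h1
  · filter_upwards [r.2, hne, eventually_ne_nhds hz] with w h1 h2 h3
    apply aff_of_eq
    rw [← qm_coe h3, hc, h1, qm_coe h2]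
  · filter_upwards [hne, eventually_ne_nhds hz] with w h2 h3
    field_simp
    ring

lemma wt_qm {h k : P1 → P1} (hh : Good h) (hk : Good k) (hc : ∀ x, k (qm x) = qm (h x)) {z : ℂ}
    (hz : z ≠ 0) (hz1 : z * z ≠ 1) (c : ℂ) :
    wt k c ((z + z⁻¹ : ℂ) : P1) = wt h c (z : P1) + wt (inv ∘ h) c (z : P1) := by
  by_cases e : h z = z
  · rw [wt_qm_of_fix hk hc hz hz1 (hh.regFix z hz e) e, wt_of_ne (h := inv ∘ h), add_zero]
    rw [Function.comp, e, inv_coe_of_ne hz]
    intro e2
    apply hz1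
    have e3 : z⁻¹ = z := OnePoint.coe_injective e2
    nth_rewrite 1 [← e3]
    exact inv_mul_cancel₀ hz
  · by_cases e2 : (inv ∘ h) z = z
    · rw [wt_qm_of_fix (h := inv ∘ h) hk (fun x => by rw [hc, Function.comp, qm_inv]) hz hz1
        (hh.regFix_inv z hz e2) e2, wt_of_ne e, zero_add]
    · rw [wt_of_ne e, wt_of_ne e2, wt_of_ne, add_zero]
      rw [← qm_coe hz, hc, qm_coe hz, Ne, qm_eq_iff hz]
      exact fun o => o.elim e e2

lemma two_mul_tsum {h k : P1 → P1} (hh : Good h) (hk : Good k) (hc : ∀ x, k (qm x) = qm (h x))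
    (c : ℂ) (hsp : ∀ z : ℂ, z * z = 1 →
      2 * wt k c ((2 * z : ℂ) : P1) = wt h c (z : P1) + wt (inv ∘ h) c (z : P1)) :
    2 * ∑' w : ℂ, wt k c (w : P1) = Sfin h c + Sfin (inv ∘ h) c := by
  classical
  unfold Sfin
  rw [← ENNReal.tsum_add, ← ENNReal.tsum_mul_left,
    ← ENNReal.tsum_fiberwise _ (fun z : ℂˣ => (z : ℂ) + (z : ℂ)⁻¹)]
  refine tsum_congr fun w => ?_
  obtain ⟨z, hz⟩ : ∃ z : ℂˣ, (z : ℂ) + (z : ℂ)⁻¹ = w := by
    obtain ⟨s, hs⟩ := IsAlgClosed.exists_eq_mul_self (w ^ 2 - 4)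
    have h0 : (w + s) / 2 ≠ 0 := by
      intro e
      have : s = -w := by linear_combination 2 * e
      rw [this] at hs
      have : (4 : ℂ) = 0 := by linear_combination -hs
      norm_num at this
    refine ⟨Units.mk0 _ h0, ?_⟩
    simp only [Units.val_mk0]
    have : ((w + s) / 2)⁻¹ = (w - s) / 2 := by
      apply inv_eq_of_mul_eq_one_right
      linear_combination hs / 4
    rw [this]; ring
  have hfib : (fun z : ℂˣ => (z : ℂ) + (z : ℂ)⁻¹) ⁻¹' {w} = (({z, z⁻¹} : Finset ℂˣ) : Set ℂˣ) := by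
    ext y
    simp only [mem_preimage, mem_singleton_iff, ← hz, add_inv_eq_iff y.ne_zero z.ne_zero,
      Finset.coe_insert, Finset.coe_singleton, mem_insert_iff, Units.ext_iff, Units.val_inv_eq_inv_val]
  rw [tsum_congr_set_coe (fun z : ℂˣ => wt h c (((z : ℂˣ) : ℂ) : P1) +
    wt (inv ∘ h) c (((z : ℂˣ) : ℂ) : P1)) hfib,
    Finset.tsum_subtype' _ (fun z : ℂˣ => wt h c (((z : ℂˣ) : ℂ) : P1) +
    wt (inv ∘ h) c (((z : ℂˣ) : ℂ) : P1))]
  by_cases h1 : (z : ℂ) * z = 1
  · have h2 : z⁻¹ = z := by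
      ext
      rw [Units.val_inv_eq_inv_val]
      exact inv_eq_of_mul_eq_one_left h1
    have h3 : w = 2 * z := by
      rw [← hz, inv_eq_of_mul_eq_one_left h1]; ring
    rw [h2, Finset.pair_eq_singleton, Finset.sum_singleton, h3, hsp _ h1]
  · have h2 : z ≠ z⁻¹ := by
      intro e
      apply h1
      nth_rewrite 2 [e]
      simp
    rw [Finset.sum_pair h2, ← wt_qm hh hk hc z.ne_zero h1, ← wt_qm hh hk hc z⁻¹.ne_zero, hz,
      Units.val_inv_eq_inv_val, inv_inv, add_comm ((z : ℂ)⁻¹), hz, two_mul]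
    rw [Units.val_inv_eq_inv_val, ← mul_inv]
    exact fun e => h1 (inv_eq_one.1 e)

end Pool.Agent.Lib.MP_af33d6_an
end

-- part Pool.Agent.Lib.MP_af33d6_an.Lattes
section

/-!
A map with a fixed point of local degree three at infinity is not a Lattes map.
-/

open Polynomial Filter Topology OnePoint Set

namespace Pool.Agent.Lib.MP_af33d6_an

lemma inv_eq_iff {x y : P1} : inv x = y ↔ x = inv y := by
  constructor
  · rintro rfl; simp
  · rintro rfl; simp

theorem not_isLattes {f : P1 → P1} (hinf : f ∞ = ∞) (r : ℂ → ℂ) (hr : AnalyticAt ℂ r 0)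
    (hord : analyticOrderAt r 0 = 3)
    (hloc : ∀ᶠ t : ℂ in 𝓝 (0 : ℂ), inv (f (inv ((t : ℂ) : P1))) = ((r t : ℂ) : P1)) : ¬ IsLattes f := by
  rintro ⟨Λ, L, a, b, Θ, hL, hhol, hfin, hcomm⟩
  set θ : ℂ → P1 := fun z => Θ (Submodule.Quotient.mk z) with hθ
  have hper : ∀ z w, w ∈ Λ.lattice → θ (z + w) = θ z := by
    intro z w hw
    simp only [hθ]
    congr 1
    rw [Submodule.Quotient.eq]
    simpa using hw
  have hfun : ∀ z, θ (a * z + b) = f (θ z) := by
    intro z
    have := congrFun hcomm (Submodule.Quotient.mk z)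
    simp only [Function.comp, hL] at this
    exact this.symm
  have hlat : Countable Λ.lattice := Λ.latticeEquivProd.toEquiv.countable_iff.2 inferInstance
  have hcount : ∀ y, (θ ⁻¹' {y}).Countable := by
    intro y
    have : θ ⁻¹' {y} ⊆ ⋃ e ∈ Θ ⁻¹' {y}, Set.range (fun l : Λ.lattice => (l : ℂ) + Quotient.out e) := by
      intro z hz
      simp only [mem_iUnion, mem_range]
      refine ⟨Submodule.Quotient.mk z, hz,
        ⟨z - Quotient.out (Submodule.Quotient.mk z : ℂ ⧸ Λ.lattice), ?_⟩, by simp⟩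
      rw [← Submodule.Quotient.eq, Submodule.Quotient.mk_out]
    exact ((hfin y).countable.biUnion fun e _ => Set.countable_range _).mono this
  have hnc : ∀ y z₀, ¬ ∀ᶠ z in 𝓝 z₀, θ z = y := by
    intro y z₀ h
    obtain ⟨z, hz1, hz2⟩ := ((hcount y).dense_compl ℂ).inter_nhds_nonempty h
    exact hz1 hz2
  -- there is a pole
  have hpole : ∃ z, θ z = ∞ := by
    by_contra! hno
    have hdiff : Differentiable ℂ (fun z => toC (θ z)) := by
      intro z₀
      obtain ⟨u, hu, h1 | h1⟩ := hhol z₀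
      · refine hu.differentiableAt.congr_of_eventuallyEq ?_
        filter_upwards [h1] with z hz
        simp [hz]
      · have hne : ∀ᶠ z in 𝓝 z₀, u z ≠ 0 := by
          filter_upwards [h1] with z hz h0
          rw [h0, inv_eq_iff, inv_zero'] at hz
          exact hno z hz
        refine (hu.inv hne.self_of_nhds).differentiableAt.congr_of_eventuallyEq ?_
        filter_upwards [h1, hne] with z hz h0
        rw [inv_eq_iff, inv_coe_of_ne h0] at hz
        simp [hz]
    have hb := (IsZLattice.isCompact_range_of_periodic Λ.lattice _ hdiff.continuous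
      (fun z w hw => by simp only [hper z w hw])).isBounded
    apply hnc (θ 0) 0
    refine Eventually.of_forall fun z => ?_
    have h1 := hdiff.apply_eq_apply_of_bounded hb z 0
    obtain ⟨p, hp⟩ := OnePoint.ne_infty_iff_exists.1 (hno z)
    obtain ⟨q, hq⟩ := OnePoint.ne_infty_iff_exists.1 (hno 0)
    simp only [← hp, ← hq, toC_coe] at h1 ⊢
    rw [h1]
  set v : ℂ → ℂ := fun z => toC (inv (θ z)) with hv
  have hvloc : ∀ z₀, θ z₀ = ∞ → AnalyticAt ℂ v z₀ ∧ (∀ᶠ z in 𝓝 z₀, θ z = inv ((v z : ℂ) : P1)) := by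
    intro z₀ hz₀
    obtain ⟨u, hu, h1 | h1⟩ := hhol z₀
    · have := h1.self_of_nhds
      rw [hz₀] at this
      exact absurd this (by simp)
    · have e : u =ᶠ[𝓝 z₀] v := by
        filter_upwards [h1] with z hz
        simp [hv, hz]
      refine ⟨hu.congr e, ?_⟩
      filter_upwards [h1, e] with z hz he
      rw [← he, ← hz, inv_inv']
  have hv0 : ∀ z₀, θ z₀ = ∞ → v z₀ = 0 := by
    intro z₀ hz₀; simp [hv, hz₀]
  have hk0 : ∀ z₀, θ z₀ = ∞ → analyticOrderAt v z₀ ≠ 0 := fun z₀ hz₀ =>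
    (hvloc z₀ hz₀).1.analyticOrderAt_ne_zero.2 (hv0 z₀ hz₀)
  have hktop : ∀ z₀, θ z₀ = ∞ → analyticOrderAt v z₀ ≠ ⊤ := by
    intro z₀ hz₀ h
    rw [analyticOrderAt_eq_top] at h
    apply hnc ∞ z₀
    filter_upwards [h, (hvloc z₀ hz₀).2] with z h1 h2
    rw [h2, h1, inv_zero']
  have hkper : ∀ z w, w ∈ Λ.lattice → analyticOrderAt v (z + w) = analyticOrderAt v z := by
    intro z w hw
    have h1 : analyticOrderAt (v ∘ fun t => t + w) z = analyticOrderAt v (z + w) :=
      analyticOrderAt_comp_of_deriv_ne_zero (g := fun t => t + w) (by fun_prop) (by simp)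
    rw [← h1]
    congr 1
    funext t
    simp only [Function.comp, hv, hper t w hw]
  have hstep : ∀ z₀, θ z₀ = ∞ → analyticOrderAt v (a * z₀ + b) = 3 * analyticOrderAt v z₀ := by
    intro z₀ hz₀
    obtain ⟨hva, hvl⟩ := hvloc z₀ hz₀
    have htend : Tendsto v (𝓝 z₀) (𝓝 0) := by
      have := hva.continuousAt.tendsto
      rwa [hv0 z₀ hz₀] at this
    have e : (v ∘ fun t => a * t + b) =ᶠ[𝓝 z₀] r ∘ v := by
      filter_upwards [hvl, htend.eventually hloc] with z h1 h2
      show toC (inv (θ (a * z + b))) = r (v z)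
      rw [hfun, h1, h2, toC_coe]
    have h3 : analyticOrderAt (r ∘ v) z₀ = 3 * analyticOrderAt v z₀ := by
      rw [AnalyticAt.analyticOrderAt_comp (by rwa [hv0 z₀ hz₀]) hva, hv0 z₀ hz₀, hord]
      simp
    rw [← h3, ← analyticOrderAt_congr e]
    by_cases ha : a = 0
    · exfalso
      have h4 : analyticOrderAt (v ∘ fun t => a * t + b) z₀ = ⊤ := by
        rw [analyticOrderAt_eq_top]
        refine Eventually.of_forall fun t => ?_
        have h5 : θ b = ∞ := by simpa [ha, hz₀, hinf] using hfun z₀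
        simpa [ha] using hv0 b h5
      rw [analyticOrderAt_congr e, h3] at h4
      obtain ⟨n, hn⟩ := ENat.ne_top_iff_exists.1 (hktop _ hz₀)
      rw [← hn] at h4
      exact absurd h4 (by norm_cast)
    · exact (analyticOrderAt_comp_of_deriv_ne_zero (g := fun t => a * t + b) (by fun_prop)
        (by simpa using ha)).symm
  have hout : ∀ z, analyticOrderAt v (Quotient.out (Submodule.Quotient.mk z : ℂ ⧸ Λ.lattice)) =
      analyticOrderAt v z := by
    intro z
    have := hkper z (Quotient.out (Submodule.Quotient.mk z : ℂ ⧸ Λ.lattice) - z) (by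
      rw [← Submodule.Quotient.eq, Submodule.Quotient.mk_out])
    rwa [add_sub_cancel] at this
  obtain ⟨z₀, hz₀⟩ := hpole
  obtain ⟨e, he, hmax⟩ := Set.exists_max_image (Θ ⁻¹' {∞})
    (fun e => analyticOrderAt v (Quotient.out e)) (hfin ∞) ⟨Submodule.Quotient.mk z₀, hz₀⟩
  have hz₁ : θ (Quotient.out e) = ∞ := by
    simp only [hθ, Submodule.Quotient.mk_out]; exact he
  have hz₂ : θ (a * Quotient.out e + b) = ∞ := by rw [hfun, hz₁, hinf]
  have h1 := hmax (Submodule.Quotient.mk (a * Quotient.out e + b)) hz₂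
  simp only [hout, hstep _ hz₁] at h1
  obtain ⟨n, hn⟩ := ENat.ne_top_iff_exists.1 (hktop _ hz₁)
  have h2 := hk0 _ hz₁
  rw [← hn] at h1 h2
  norm_cast at h1 h2
  omega

end Pool.Agent.Lib.MP_af33d6_an
end

-- part Pool.Agent.Lib.MP_af33d6_an.Example
section

/-!
The example: `F(z) = z^3 (5 z^8 + 11) / (11 z^8 + 5)` commutes with `z ↦ 1 / z` and descends
along `w = z + 1 / z` to `f = P / Q` of degree eleven; `g = - f`.
-/

open Polynomial Filter Topology OnePoint Set

namespace Pool.Agent.Lib.MP_af33d6_an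

noncomputable def PP : ℂ[X] :=
  25 * X ^ 11 - 275 * X ^ 9 + 1100 * X ^ 7 - 1804 * X ^ 5 + 880 * X ^ 3

noncomputable def QQ : ℂ[X] := 55 * X ^ 8 - 440 * X ^ 6 + 1100 * X ^ 4 - 880 * X ^ 2 + 256

noncomputable def fe (ε : ℂ) : P1 → P1 := rm (C ε * PP) QQ

noncomputable def FF : P1 → P1 := rm (X ^ 3 * (5 * X ^ 8 + 11)) (11 * X ^ 8 + 5)

lemma eval_PP (w : ℂ) :
    PP.eval w = 25 * w ^ 11 - 275 * w ^ 9 + 1100 * w ^ 7 - 1804 * w ^ 5 + 880 * w ^ 3 := by
  simp [PP]

lemma eval_QQ (w : ℂ) :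
    QQ.eval w = 55 * w ^ 8 - 440 * w ^ 6 + 1100 * w ^ 4 - 880 * w ^ 2 + 256 := by
  simp [QQ]

lemma eval_dPP (w : ℂ) : (derivative PP).eval w =
    275 * w ^ 10 - 2475 * w ^ 8 + 7700 * w ^ 6 - 9020 * w ^ 4 + 2640 * w ^ 2 := by
  simp [PP]; ring

lemma eval_dQQ (w : ℂ) :
    (derivative QQ).eval w = 440 * w ^ 7 - 2640 * w ^ 5 + 4400 * w ^ 3 - 1760 * w := by
  simp [QQ]; ring

lemma natDegree_PP : PP.natDegree = 11 := by unfold PP; compute_degree!

lemma natDegree_QQ : QQ.natDegree = 8 := by unfold QQ; compute_degree!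

lemma coprime_PQ : IsCoprime PP QQ := by
  refine ⟨C (884736 : ℂ)⁻¹ * (4840 * X + 8470 * X ^ 3 - 3025 * X ^ 5),
    C (884736 : ℂ)⁻¹ * (3456 + 11880 * X ^ 2 + 9350 * X ^ 4 - 7975 * X ^ 6 + 1375 * X ^ 8), ?_⟩
  have h : C (884736 : ℂ)⁻¹ * (884736 : ℂ[X]) = 1 := by
    rw [show (884736 : ℂ[X]) = C 884736 from rfl, ← C_mul]; simp
  rw [← h]
  unfold PP QQ
  ring

lemma coprime_e {ε : ℂ} (hε : ε ≠ 0) : IsCoprime (C ε * PP) QQ :=
  (isCoprime_mul_unit_left_left (isUnit_C.2 hε.isUnit) _ _).2 coprime_PQ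

lemma max_deg {ε : ℂ} (hε : ε ≠ 0) : max (C ε * PP).natDegree QQ.natDegree = 11 := by
  rw [natDegree_C_mul hε, natDegree_PP, natDegree_QQ]; rfl

lemma fe_eq {ε : ℂ} (hε : ε ≠ 0) : fe ε = ratMap (C ε * PP) QQ := by
  funext x
  induction x using OnePoint.rec with
  | infty =>
    rw [ratMap_infty, max_deg hε, coeff_eq_zero_of_natDegree_lt (p := QQ) (by
      rw [natDegree_QQ]; norm_num), pt_zero]
    rfl
  | coe z => rfl

lemma isRat_fe {ε : ℂ} (hε : ε ≠ 0) : IsRat 11 (fe ε) :=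
  ⟨_, _, coprime_e hε, max_deg hε, fe_eq hε⟩

@[simp] lemma fe_infty (ε : ℂ) : fe ε ∞ = ∞ := rfl

lemma fe_coe (ε w : ℂ) : fe ε (w : P1) = pt (ε * PP.eval w) (QQ.eval w) := by
  simp [fe]

@[simp] lemma FF_infty : FF ∞ = ∞ := rfl

lemma FF_coe (z : ℂ) : FF (z : P1) = pt (z ^ 3 * (5 * z ^ 8 + 11)) (11 * z ^ 8 + 5) := by
  simp [FF]

lemma good_fe (ε : ℂ) : Good (fe ε) := good_rm _ _

lemma good_FF : Good FF := good_rm _ _

lemma fe_neg (x : P1) : fe (-1) x = sc (-1) (fe 1 x) := by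
  induction x using OnePoint.rec with
  | infty => simp
  | coe w => rw [fe_coe, fe_coe, sc_pt, one_mul]

lemma fe_odd (x : P1) : fe 1 (sc (-1) x) = sc (-1) (fe 1 x) := by
  induction x using OnePoint.rec with
  | infty => simp
  | coe w =>
    rw [sc_coe, fe_coe, fe_coe, sc_pt, eval_PP, eval_PP, eval_QQ, eval_QQ]
    congr 1 <;> ring

lemma fe_neg_iterate (n : ℕ) (x : P1) : (fe (-1))^[n] x = sc ((-1) ^ n) ((fe 1)^[n] x) := by
  induction n with
  | zero => simp
  | succ n ih =>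
    rw [Function.iterate_succ_apply', Function.iterate_succ_apply', ih, fe_neg]
    rcases neg_one_pow_eq_or ℂ n with h | h
    · rw [pow_succ, h, sc_one, one_mul]
    · rw [pow_succ, h, fe_odd, sc_sc]

lemma pt_mul {a b c : ℂ} (hc : c ≠ 0) : pt (c * a) (c * b) = pt a b := by
  by_cases hb : b = 0
  · simp [hb]
  · rw [pt_of_ne hb, pt_of_ne (mul_ne_zero hc hb), mul_div_mul_left _ _ hc]

lemma qm_pt (a b : ℂ) : qm (pt a b) = pt (a ^ 2 + b ^ 2) (a * b) := by
  by_cases hb : b = 0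
  · simp [hb]
  · by_cases ha : a = 0
    · simp [ha, pt_of_ne hb]
    · rw [pt_of_ne hb, qm_coe (div_ne_zero ha hb), pt_of_ne (mul_ne_zero ha hb)]
      congr 1
      field_simp

lemma FF_ne {z : ℂ} : z ^ 3 * (5 * z ^ 8 + 11) ≠ 0 ∨ 11 * z ^ 8 + 5 ≠ 0 := by
  by_contra! h
  obtain ⟨h1, h2⟩ := h
  have h3 : 5 * z ^ 8 + 11 = (96 / 11 : ℂ) := by linear_combination (5 / 11) * h2
  rw [h3] at h1
  have h4 : z = 0 := by simpa using h1
  rw [h4] at h2
  norm_num at h2

lemma fe_qm (x : P1) : fe 1 (qm x) = qm (FF x) := by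
  induction x using OnePoint.rec with
  | infty => simp
  | coe z =>
    rw [FF_coe, qm_pt]
    by_cases hz : z = 0
    · simp [hz]
    · rw [qm_coe hz, fe_coe, eval_PP, eval_QQ, ← pt_mul (pow_ne_zero 11 hz)]
      congr 1
      · field_simp; ring
      · field_simp; ring

lemma FF_inv (x : P1) : FF (inv x) = inv (FF x) := by
  induction x using OnePoint.rec with
  | infty => simp [FF_coe, pt]
  | coe z =>
    rw [FF_coe, inv_pt FF_ne]
    by_cases hz : z = 0
    · simp [hz]
    · rw [inv_coe_of_ne hz, FF_coe, ← pt_mul (pow_ne_zero 11 hz)]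
      congr 1
      · field_simp; ring
      · field_simp; ring

lemma FF_sc {s : ℂ} (hs : s ^ 8 = 1) (x : P1) : FF (sc s x) = sc (s ^ 3) (FF x) := by
  induction x using OnePoint.rec with
  | infty => simp
  | coe z =>
    rw [sc_coe, FF_coe, FF_coe, sc_pt, mul_pow s z 8, hs, one_mul]
    congr 1
    ring

lemma FF_iterate_sc (n : ℕ) {s : ℂ} (hs : s ^ 8 = 1) (x : P1) :
    FF^[n] (sc s x) = sc (s ^ 3 ^ n) (FF^[n] x) := by
  induction n with
  | zero => simp
  | succ n ih =>
    rw [Function.iterate_succ_apply', Function.iterate_succ_apply', ih, FF_sc, ← pow_mul, pow_succ]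
    rw [← pow_mul, mul_comm, pow_mul, hs, one_pow]

lemma FF_iterate_sc_odd {n : ℕ} (hn : Odd n) {s : ℂ} (hs : s ^ 8 = 1) (x : P1) :
    FF^[n] (sc s x) = sc (s ^ 3) (FF^[n] x) := by
  rw [FF_iterate_sc n hs]
  obtain ⟨k, rfl⟩ := hn
  have : 3 ^ (2 * k + 1) % 8 = 3 := by
    rw [pow_succ, pow_mul, Nat.mul_mod, Nat.pow_mod]; norm_num
  rw [pow_eq_pow_mod _ hs, this]

lemma fe_iterate_qm (n : ℕ) (x : P1) : (fe 1)^[n] (qm x) = qm (FF^[n] x) :=
  ((show Function.Semiconj qm FF (fe 1) from fun x => (fe_qm x).symm).iterate_right n x).symm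

lemma SA_fe {z : ℂ} (hz : z * z = 1) : SA (fe 1) (2 * z) := by
  have hz' : z = 1 ∨ z = -1 := mul_self_eq_one_iff.1 hz
  have hQ : QQ.eval (2 * z) ≠ 0 := by
    rcases hz' with rfl | rfl <;> rw [eval_QQ] <;> norm_num
  have hfix : fe 1 ((2 * z : ℂ) : P1) = ((2 * z : ℂ) : P1) := by
    rw [fe_coe, pt_eq_coe]
    refine ⟨hQ, ?_⟩
    rcases hz' with rfl | rfl <;> rw [eval_QQ, eval_PP] <;> norm_num
  refine ⟨(good_fe 1).2 _ (by simp [hfix]), hfix, deriv_rm_eq_zero _ _ hQ ?_⟩
  rw [C_1, one_mul, eval_dPP, eval_dQQ, eval_PP, eval_QQ]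
  rcases hz' with rfl | rfl <;> norm_num

lemma SA_FF {z : ℂ} (hz : z * z = 1) : SA FF z := by
  have hz' : z = 1 ∨ z = -1 := mul_self_eq_one_iff.1 hz
  have hfix : FF (z : P1) = (z : P1) := by
    rw [FF_coe, pt_eq_coe]
    rcases hz' with rfl | rfl <;> norm_num
  refine ⟨good_FF.2 _ (by simp [hfix]), hfix, deriv_rm_eq_zero _ _ ?_ ?_⟩
  · rcases hz' with rfl | rfl <;> norm_num
  · rcases hz' with rfl | rfl <;> norm_num

/-- the map `f` read in the coordinate at infinity -/
noncomputable def rInf (ε t : ℂ) : ℂ :=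
  t ^ 3 * ((55 - 440 * t ^ 2 + 1100 * t ^ 4 - 880 * t ^ 6 + 256 * t ^ 8) /
    (ε * (25 - 275 * t ^ 2 + 1100 * t ^ 4 - 1804 * t ^ 6 + 880 * t ^ 8)))

lemma rInf_spec {ε : ℂ} (hε : ε ≠ 0) : AnalyticAt ℂ (rInf ε) 0 ∧ analyticOrderAt (rInf ε) 0 = 3 ∧
    ∀ᶠ t : ℂ in 𝓝 (0 : ℂ), inv (fe ε (inv ((t : ℂ) : P1))) = ((rInf ε t : ℂ) : P1) := by
  have hden : AnalyticAt ℂ
      (fun t : ℂ => ε * (25 - 275 * t ^ 2 + 1100 * t ^ 4 - 1804 * t ^ 6 + 880 * t ^ 8)) 0 := by
    fun_prop
  have hu : AnalyticAt ℂ (fun t : ℂ => (55 - 440 * t ^ 2 + 1100 * t ^ 4 - 880 * t ^ 6 + 256 * t ^ 8) /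
      (ε * (25 - 275 * t ^ 2 + 1100 * t ^ 4 - 1804 * t ^ 6 + 880 * t ^ 8))) 0 :=
    AnalyticAt.div (by fun_prop) hden (by simpa using hε)
  have ha : AnalyticAt ℂ (rInf ε) 0 := AnalyticAt.mul (by fun_prop) hu
  refine ⟨ha, ?_, ?_⟩
  · refine (ha.analyticOrderAt_eq_natCast (n := 3)).2 ⟨_, hu, by simpa using hε, ?_⟩
    exact Eventually.of_forall fun t => by simp [rInf]
  · filter_upwards [hden.continuousAt.eventually_ne (y := 0) (by simpa using hε)] with t ht
    by_cases h0 : t = 0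
    · simp [h0, rInf]
    · rw [inv_coe_of_ne h0, fe_coe, inv_pt (by
        simpa only [eval_mul, eval_C] using no_common_root (coprime_e hε) t⁻¹), eval_PP, eval_QQ,
        ← pt_mul (pow_ne_zero 11 h0), pt_eq_coe]
      have e1 : t ^ 11 * (ε * (25 * t⁻¹ ^ 11 - 275 * t⁻¹ ^ 9 + 1100 * t⁻¹ ^ 7 - 1804 * t⁻¹ ^ 5 +
          880 * t⁻¹ ^ 3)) =
          ε * (25 - 275 * t ^ 2 + 1100 * t ^ 4 - 1804 * t ^ 6 + 880 * t ^ 8) := by
        field_simp
      rw [e1]
      refine ⟨ht, ?_⟩
      unfold rInf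
      rw [mul_assoc, div_mul_cancel₀ _ ht]
      field_simp

lemma not_isLattes_fe {ε : ℂ} (hε : ε ≠ 0) : ¬ IsLattes (fe ε) :=
  not_isLattes rfl _ (rInf_spec hε).1 (rInf_spec hε).2.1 (rInf_spec hε).2.2

lemma SA_infty {ε : ℂ} (hε : ε ≠ 0) : SA (inv ∘ fe ε ∘ inv) 0 := by
  obtain ⟨h1, h2, h3⟩ := rInf_spec hε
  refine ⟨Reg.of_eventually h1 h3, by simp, ?_⟩
  rw [(aff_eventually (h := inv ∘ fe ε ∘ inv) h3).deriv_eq]
  by_contra hne
  have := h1.analyticOrderAt_eq_one_of_zero_deriv_ne_zero (by simp [rInf]) hne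
  rw [h2] at this
  exact absurd this (by decide)

lemma wt_infty_fe {ε : ℂ} (hε : ε ≠ 0) {n : ℕ} (hn : 1 ≤ n) (c : ℂ) :
    wt (fe ε)^[n] c ∞ = if c = 0 then 1 else 0 := by
  rw [wt_infty, inv_iterate_inv, ((SA_infty hε).iterate hn).wt]

theorem sameSpectrum : SameSpectrum (fe 1) (fe (-1)) := by
  intro n hn c
  rcases Nat.even_or_odd n with he | ho
  · congr 1
    funext x
    rw [fe_neg_iterate, he.neg_one_pow, sc_one]
  rw [multCount_eq, multCount_eq, wt_infty_fe one_ne_zero hn, wt_infty_fe (by norm_num) hn]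
  congr 1
  have hg : (fe (-1))^[n] = sc (-1) ∘ (fe 1)^[n] := by
    funext x
    rw [fe_neg_iterate, ho.neg_one_pow, Function.comp]
  have gF := good_FF.iterate n
  have gf := (good_fe 1).iterate n
  have h1 := two_mul_tsum gF gf (fe_iterate_qm n) c (fun z hz => by
    rw [((SA_fe hz).iterate hn).wt, ((SA_FF hz).iterate hn).wt,
      (((SA_FF hz).iterate hn).inv_comp hz).wt, two_mul])
  have h2 := two_mul_tsum (gF.comp (good_sc (-1))) (gf.comp (good_sc (-1)))
    (fun x => by simp only [Function.comp, fe_iterate_qm, qm_neg]) c (fun z hz => by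
      have hz0 : z ≠ 0 := by rintro rfl; simp at hz
      have hneg : ∀ y : ℂ, y ≠ 0 → -1 * y ≠ y := by
        intro y hy e
        apply hy
        linear_combination (-1 / 2) * e
      rw [wt_of_ne, wt_of_ne, wt_of_ne, mul_zero, add_zero]
      · simp only [Function.comp]
        rw [((SA_FF hz).iterate hn).2.1, sc_coe, inv_coe_of_ne (by simpa using hz0), mul_inv,
          inv_eq_of_mul_eq_one_left hz, Ne, OnePoint.coe_eq_coe]
        simpa using hneg z hz0
      · simp only [Function.comp]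
        rw [((SA_FF hz).iterate hn).2.1, sc_coe, Ne, OnePoint.coe_eq_coe]
        exact hneg z hz0
      · simp only [Function.comp]
        rw [((SA_fe hz).iterate hn).2.1, sc_coe, Ne, OnePoint.coe_eq_coe]
        exact hneg _ (by simpa using hz0))
  have h3 : Sfin (sc (-1) ∘ FF^[n]) c = Sfin FF^[n] c := by
    refine Sfin_scale gF.regFix (gF.comp (good_sc (-1))).regFix Complex.I_ne_zero (fun x => ?_) c
    have hI : Complex.I ^ 8 = 1 := by
      rw [show (8 : ℕ) = 4 * 2 from rfl, pow_mul, Complex.I_pow_four, one_pow]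
    rw [Function.comp, FF_iterate_sc_odd ho hI, sc_sc]
    congr 1
    rw [Complex.I_pow_three]; ring
  have h4 : Sfin (inv ∘ sc (-1) ∘ FF^[n]) c = Sfin (inv ∘ FF^[n]) c := by
    obtain ⟨s, hs⟩ := IsAlgClosed.exists_pow_nat_eq (-1 : ℂ) (n := 4) (by norm_num)
    have hs0 : s ≠ 0 := by rintro rfl; norm_num at hs
    have hs8 : s ^ 8 = 1 := by
      rw [show (8 : ℕ) = 4 * 2 from rfl, pow_mul, hs]; norm_num
    refine Sfin_scale gF.regFix_inv (gF.comp (good_sc (-1))).regFix_inv hs0 (fun x => ?_) c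
    simp only [Function.comp]
    rw [FF_iterate_sc_odd ho hs8, sc_sc, inv_sc (by simpa using hs0)]
    congr 1
    apply inv_eq_of_mul_eq_one_left
    linear_combination -hs
  rw [h3, h4, ← h1] at h2
  rw [hg]
  exact ((ENNReal.mul_right_inj two_ne_zero (by norm_num)).1 h2).symm

end Pool.Agent.Lib.MP_af33d6_an
end

-- part Pool.Agent.Lib.MP_af33d6_an.Separate
section

/-!
`f` has a fixed point with at most five preimages, `- f` has none.
-/

open Polynomial Filter Topology OnePoint Set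

namespace Pool.Agent.Lib.MP_af33d6_an

lemma card_roots_ge (p : ℂ[X]) (hp : p ≠ 0) (r : ℂ) (k : ℕ)
    (h1 : ∀ z, z ≠ r → p.IsRoot z → ¬ (derivative p).IsRoot z)
    (h2 : p.rootMultiplicity r ≤ 1 + k) : p.natDegree ≤ p.roots.toFinset.card + k := by
  classical
  rw [← IsAlgClosed.card_roots_eq_natDegree, ← Multiset.toFinset_sum_count_eq]
  have h3 : ∀ z ∈ p.roots.toFinset, p.roots.count z ≤ 1 + if z = r then k else 0 := by
    intro z _
    rw [count_roots]
    split_ifs with h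
    · rwa [h]
    · by_contra! hlt
      obtain ⟨r1, r2⟩ := (one_lt_rootMultiplicity_iff_isRoot hp).1 hlt
      exact h1 z h r1 r2
  refine (Finset.sum_le_sum h3).trans ?_
  rw [Finset.sum_add_distrib, Finset.sum_ite_eq']
  simp only [Finset.sum_const, smul_eq_mul, mul_one]
  split_ifs <;> omega

noncomputable def AA : ℂ[X] := 5 * X ^ 4 + 15 * X ^ 3 + 10 * X ^ 2 - 6 * X - 8

lemma natDegree_AA : AA.natDegree = 4 := by unfold AA; compute_degree!

lemma eval_AA (w : ℂ) : AA.eval w = 5 * w ^ 4 + 15 * w ^ 3 + 10 * w ^ 2 - 6 * w - 8 := by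
  simp [AA]

theorem inv_fe_one : Inv (fe 1) := by
  classical
  refine ⟨(isRat_fe one_ne_zero).genDeg, ((2 : ℂ) : P1), ?_, ?_⟩
  · simpa using (SA_fe (z := 1) (by simp)).2.1
  · have hA : AA ≠ 0 := by
      intro h
      have := natDegree_AA
      rw [h] at this
      simp at this
    have hsub : fe 1 ⁻¹' {((2 : ℂ) : P1)} ⊆
        ((↑) : ℂ → P1) '' ((insert 2 AA.roots.toFinset : Finset ℂ) : Set ℂ) := by
      intro x hx
      induction x using OnePoint.rec with
      | infty => simp at hx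
      | coe w =>
        refine ⟨w, ?_, rfl⟩
        rw [mem_preimage, mem_singleton_iff, fe_coe, pt_eq_coe, eval_PP, eval_QQ] at hx
        have h1 : (w - 2) ^ 3 * (AA.eval w) ^ 2 = 0 := by
          rw [eval_AA]; linear_combination hx.2
        rw [Finset.mem_coe, Finset.mem_insert, Multiset.mem_toFinset, mem_roots hA]
        rcases mul_eq_zero.1 h1 with h | h
        · left; exact sub_eq_zero.1 (pow_eq_zero_iff (by norm_num) |>.1 h)
        · right; exact pow_eq_zero_iff (by norm_num) |>.1 h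
    refine (Set.encard_le_encard hsub).trans ?_
    rw [OnePoint.coe_injective.encard_image, Set.encard_coe_eq_coe_finsetCard]
    have h1 := Finset.card_insert_le 2 AA.roots.toFinset
    have h2 := Multiset.toFinset_card_le AA.roots
    have h3 := card_roots' AA
    rw [natDegree_AA] at h3
    norm_cast
    omega

theorem not_inv_fe_neg : ¬ Inv (fe (-1)) := by
  classical
  rintro ⟨-, x, hx, hcard⟩
  have hε : (-1 : ℂ) ≠ 0 := by norm_num
  induction x using OnePoint.rec with
  | infty =>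
    have hQ : QQ ≠ 0 := by
      intro h
      have := natDegree_QQ
      rw [h] at this
      simp at this
    have hsub : ((↑) : ℂ → P1) '' (QQ.roots.toFinset : Set ℂ) ⊆ fe (-1) ⁻¹' {∞} := by
      rintro _ ⟨w, hw, rfl⟩
      rw [Finset.mem_coe, Multiset.mem_toFinset, mem_roots hQ] at hw
      rw [mem_preimage, mem_singleton_iff, fe_coe, pt_eq_infty]
      exact hw
    have h1 := (Set.encard_le_encard hsub).trans hcard
    rw [OnePoint.coe_injective.encard_image, Set.encard_coe_eq_coe_finsetCard] at h1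
    have h2 := card_roots_ge QQ hQ 0 0 (by
      intro z _ r1 r2
      rw [IsRoot.def, eval_QQ] at r1
      rw [IsRoot.def, eval_dQQ] at r2
      have : (9216 : ℂ) = 0 := by
        linear_combination
          ((z ^ 2 - 4) * (440 * z ^ 7 - 2640 * z ^ 5 + 4400 * z ^ 3 - 1760 * z) / 64) * r2 -
          (55 * z ^ 8 - 440 * z ^ 6 + 1100 * z ^ 4 - 880 * z ^ 2 + 256 - 292) * r1
      norm_num at this) (by
      rw [rootMultiplicity_eq_zero (by rw [IsRoot.def, eval_QQ]; norm_num)]; norm_num)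
    rw [natDegree_QQ] at h2
    norm_cast at h1
    omega
  | coe c =>
    have hc : ratMap (C (-1) * PP) QQ ∞ ≠ (c : P1) := by rw [← fe_eq hε]; simp
    obtain ⟨h0, hdeg⟩ := natDegree_sub_of_ne (coprime_e hε) hc
    rw [max_deg hε] at hdeg
    rw [fe_eq hε, fiber_eq (coprime_e hε) hc, OnePoint.coe_injective.encard_image,
      Set.encard_coe_eq_coe_finsetCard] at hcard
    rw [fe_coe, pt_eq_coe, eval_PP, eval_QQ] at hx
    obtain ⟨-, hx⟩ := hx
    have hc2 : c ≠ 2 := by rintro rfl; norm_num at hx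
    have hc2' : c ≠ -2 := by rintro rfl; norm_num at hx
    have key : ∀ z, (C (-1) * PP - C c * QQ).IsRoot z →
        (derivative (C (-1) * PP - C c * QQ)).IsRoot z → z = c ∧ (z = 0 ∨ z ^ 2 = 2) := by
      intro z r1 r2
      simp only [IsRoot.def, eval_sub, eval_mul, eval_C, derivative_sub, derivative_mul,
        derivative_C, zero_mul, zero_add, eval_PP, eval_QQ, eval_dPP, eval_dQQ] at r1 r2
      have hQz : QQ.eval z ≠ 0 := by
        intro e
        rcases no_common_root coprime_PQ z with h | h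
        · apply h
          rw [eval_QQ] at e
          rw [eval_PP]
          linear_combination -r1 - c * e
        · exact h e
      rw [eval_QQ] at hQz
      have hA : (z - 2) * (5 * z ^ 4 + 15 * z ^ 3 + 10 * z ^ 2 - 6 * z - 8) ≠ 0 := by
        intro e
        apply hc2'
        apply mul_right_cancel₀ hQz
        linear_combination -r1 - (z - 2) ^ 2 * (5 * z ^ 4 + 15 * z ^ 3 + 10 * z ^ 2 - 6 * z - 8) * e
      have hB : (z + 2) * (5 * z ^ 4 - 15 * z ^ 3 + 10 * z ^ 2 + 6 * z - 8) ≠ 0 := by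
        intro e
        apply hc2
        apply mul_right_cancel₀ hQz
        linear_combination -r1 - (z + 2) ^ 2 * (5 * z ^ 4 - 15 * z ^ 3 + 10 * z ^ 2 + 6 * z - 8) * e
      have hW : (z * (z ^ 2 - 2)) ^ 2 * ((z - 2) * (z + 2) *
          (((z - 2) * (5 * z ^ 4 + 15 * z ^ 3 + 10 * z ^ 2 - 6 * z - 8)) *
          ((z + 2) * (5 * z ^ 4 - 15 * z ^ 3 + 10 * z ^ 2 + 6 * z - 8)))) = 0 := by
        linear_combination
          (-(55 * z ^ 8 - 440 * z ^ 6 + 1100 * z ^ 4 - 880 * z ^ 2 + 256) / 165) * r2 +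
          ((440 * z ^ 7 - 2640 * z ^ 5 + 4400 * z ^ 3 - 1760 * z) / 165) * r1
      have hz : z * (z ^ 2 - 2) = 0 := by
        rcases mul_eq_zero.1 hW with h | h
        · exact pow_eq_zero_iff (by norm_num) |>.1 h
        · exact absurd h (mul_ne_zero (mul_ne_zero (left_ne_zero_of_mul hA)
            (left_ne_zero_of_mul hB)) (mul_ne_zero hA hB))
      rcases mul_eq_zero.1 hz with h | h
      · refine ⟨?_, Or.inl h⟩
        rw [h] at r1 ⊢
        linear_combination r1 / 256
      · refine ⟨?_, Or.inr (sub_eq_zero.1 h)⟩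
        have h2 : z ^ 2 = 2 := sub_eq_zero.1 h
        have h4 : z ^ 4 = 4 := by rw [show z ^ 4 = (z ^ 2) ^ 2 by ring, h2]; norm_num
        have h6 : z ^ 6 = 8 := by rw [show z ^ 6 = (z ^ 2) ^ 3 by ring, h2]; norm_num
        have h8 : z ^ 8 = 16 := by rw [show z ^ 8 = (z ^ 2) ^ 4 by ring, h2]; norm_num
        have h10 : z ^ 10 = 32 := by rw [show z ^ 10 = (z ^ 2) ^ 5 by ring, h2]; norm_num
        have e : -1 * (25 * (z * z ^ 10) - 275 * (z * z ^ 8) + 1100 * (z * z ^ 6) -
            1804 * (z * z ^ 4) + 880 * (z * z ^ 2)) -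
            c * (55 * z ^ 8 - 440 * z ^ 6 + 1100 * z ^ 4 - 880 * z ^ 2 + 256) = 0 := by
          linear_combination r1
        rw [h2, h4, h6, h8, h10] at e
        linear_combination e / 256
    have h2 := card_roots_ge _ h0 c 2 (fun z hz r1 r2 => hz (key z r1 r2).1) (by
      by_contra! hlt
      have h3 := (lt_rootMultiplicity_iff_isRoot_iterate_derivative h0).1 hlt
      have h4 := (key c (h3 0 (by norm_num)) (h3 1 (by norm_num))).2
      have h5 := h3 3 (by norm_num)
      have h6 : eval c (derivative^[3] (C (-1) * PP - C c * QQ)) =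
          -5280 + 81840 * c ^ 2 - 178200 * c ^ 4 + 120120 * c ^ 6 - 24750 * c ^ 8 := by
        simp [PP, QQ, Function.iterate_succ]
        ring
      rw [IsRoot.def, h6] at h5
      rcases h4 with h | h
      · rw [h] at h5; norm_num at h5
      · have : (10560 : ℂ) = 0 := by
          linear_combination h5 - (7920 - 36960 * c ^ 2 + 70620 * c ^ 4 - 24750 * c ^ 6) * h
        norm_num at this)
    rw [hdeg] at h2
    have h7 : (C (-1) * PP - C c * QQ).roots.toFinset.card ≤ 5 := Nat.cast_le_ofNat.1 hcard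
    omega

end Pool.Agent.Lib.MP_af33d6_an
end
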